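import Mathlib
import Pool.Agent.H.MP_ef395a_gt.A

set_option autoImplicit false

namespace Pool.Agent.H.MP_2a01b0_gt

open Set Filter Topology Cardinal Function Pool.Agent.H.MP_9c4169_gt Pool.Agent.H.MP_ef395a_gt

/-- The monochromatic sumgraph property, for large covers with no finite subcover. -/
def Star (Z : Type) [TopologicalSpace Z] : Prop :=
  ∀ 𝒰 ∈ La (Op Z), (∀ ℱ ⊆ 𝒰, ℱ.Finite → ⋃₀ ℱ ≠ Set.univ) → ∀ (k : ℕ) (χ : Sym2 (Set Z) → Fin k),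
    ∃ ℱ : ℕ → Set (Set Z), (∀ n, (ℱ n).Finite ∧ (ℱ n).Nonempty ∧ ℱ n ⊆ 𝒰) ∧
      Pairwise (Disjoint on ℱ) ∧ (⋃ n, ℱ n) ∈ La (Op Z) ∧ ∃ c, ∀ H K : Finset ℕ,
        H.Nonempty → K.Nonempty → (∀ i ∈ H, ∀ j ∈ K, i < j) →
          (⋃ i ∈ H, ⋃₀ ℱ i) ≠ (⋃ j ∈ K, ⋃₀ ℱ j) ∧ χ s(⋃ i ∈ H, ⋃₀ ℱ i, ⋃ j ∈ K, ⋃₀ ℱ j) = c

theorem enum {Z : Type} [TopologicalSpace Z] [SecondCountableTopology Z] [Nonempty Z]
    {𝒰 : Set (Set Z)} (hU : 𝒰 ∈ La (Op Z)) :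
    ∃ u : ℕ → Set Z, Injective u ∧ (∀ n, u n ∈ 𝒰) ∧ ∀ z, {n | z ∈ u n}.Infinite := by
  have h1 : ∀ B : Set Z, ∃ 𝒞 ⊆ {U ∈ 𝒰 | B ⊆ U}, 𝒞.Countable ∧
      (𝒞.Infinite ∨ 𝒞 = {U ∈ 𝒰 | B ⊆ U}) := fun B => by
    rcases {U ∈ 𝒰 | B ⊆ U}.finite_or_infinite with h | h
    · exact ⟨_, subset_rfl, h.countable, Or.inr rfl⟩
    · exact ⟨range fun n => h.natEmbedding _ n, range_subset_iff.2 fun n => Subtype.prop _,
        countable_range _, Or.inl (infinite_range_of_injective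
          (Subtype.val_injective.comp (h.natEmbedding _).injective))⟩
  choose 𝒞 c1 c2 c3 using h1
  let 𝒱 := ⋃ B ∈ TopologicalSpace.countableBasis Z, 𝒞 B
  have v1 : 𝒱 ⊆ 𝒰 := iUnion₂_subset fun B _ U hU => (c1 B hU).1
  have v2 : ∀ z, {U ∈ 𝒱 | z ∈ U}.Infinite := fun z hz => by
    obtain ⟨U, ⟨u1, u2⟩, u3⟩ := (hU.2 z).exists_notMem_finite hz
    obtain ⟨B, b1, b2, b3⟩ :=
      (TopologicalSpace.isBasis_countableBasis Z).exists_subset_of_mem_open u2 (hU.1.1 u1)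
    rcases c3 B with h | h
    · exact h (hz.subset fun W hW => ⟨mem_biUnion b1 hW, (c1 B hW).2 b2⟩)
    · exact u3 ⟨mem_biUnion b1 (h.ge ⟨u1, b3⟩), u2⟩
  have := ((TopologicalSpace.countable_countableBasis Z).biUnion fun B _ => c2 B).to_subtype
  have := ((v2 (Classical.arbitrary Z)).mono (sep_subset _ _)).to_subtype
  obtain ⟨e⟩ := nonempty_equiv_of_countable (α := ℕ) (β := 𝒱)
  exact ⟨fun n => e n, Subtype.val_injective.comp e.injective, fun n => v1 (e n).2, fun z =>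
    Infinite.of_image (fun n => (e n).1) ((v2 z).mono fun U hU =>
      ⟨e.symm ⟨U, hU.1⟩, by simpa using hU.2, by simp⟩)⟩

def G (p : ℕ × (ℕ → ℕ)) : Set (Set ℕ) :=
  {a | a.Finite ∧ a ⊆ Ici p.1 ∧ ∃ k, Ico k (p.2 k) ⊆ a}

theorem idem : ∃ 𝒰 : Ultrafilter (Set ℕ), (∀ p, G p ∈ 𝒰) ∧
    ∀ p : Set ℕ → Prop, (∀ᶠ a in 𝒰, p a) ↔ ∀ᶠ a in 𝒰, ∀ᶠ b in 𝒰, p (a ∪ b) := by
  let _ : Semigroup (Set ℕ) := { mul := (· ∪ ·), mul_assoc := union_assoc }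
  let _ : Semigroup (Ultrafilter (Set ℕ)) := Ultrafilter.semigroup
  obtain ⟨𝒰, h1, h2⟩ := exists_idempotent_in_compact_subsemigroup
    (M := Ultrafilter (Set ℕ)) Ultrafilter.continuous_mul_left (⋂ p, {𝒰 | G p ∈ 𝒰})
    ((MP_7b7e09_gt.ult G (fun p => ⟨_, finite_Ico _ _, Ico_subset_Ici_self, p.1, subset_rfl⟩)
      fun p q => ⟨p ⊔ q, fun a ⟨h1, h2, k, h3⟩ => ⟨h1, h2.trans (Ici_subset_Ici.2 le_sup_left), k,
        (Ico_subset_Ico_right le_sup_left).trans h3⟩, fun a ⟨h1, h2, k, h3⟩ => ⟨h1,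
        h2.trans (Ici_subset_Ici.2 le_sup_right), k,
        (Ico_subset_Ico_right le_sup_right).trans h3⟩⟩).imp fun _ h => mem_iInter.2 h)
    (isClosed_iInter fun i => ultrafilter_isClosed_basic _).isCompact fun U hU V hV =>
      mem_iInter.2 fun m => (Ultrafilter.eventually_mul U V (· ∈ G m)).2 <| by
        filter_upwards [mem_iInter.1 hU m] with a ha
        filter_upwards [mem_iInter.1 hV m] with b hb
        exact ⟨ha.1.union hb.1, union_subset ha.2.1 hb.2.1,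
          ha.2.2.imp fun k h => h.trans subset_union_left⟩
  exact ⟨𝒰, mem_iInter.1 h1, fun p => by
    have := Ultrafilter.eventually_mul 𝒰 𝒰 p
    rwa [h2] at this⟩

theorem blocks {k : ℕ} (c : Set ℕ → Set ℕ → Fin k) (q : Set ℕ → Set ℕ)
    (hq : ∀ a, (q a).Infinite) : ∃ t : ℕ → ℕ, StrictMono t ∧ ∀ Z : Set ℕ, Z.Infinite →
      ∃ (F : ℕ → Set ℕ) (l : ℕ), (∀ n, (F n).Finite ∧ (F n).Nonempty) ∧ Pairwise (Disjoint on F) ∧
        (∀ j ≥ l, j ∉ Z → Ico (t j) (t (j + 1)) ⊆ ⋃ n, F n) ∧ ∃ i, ∀ H K : Finset ℕ,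
          H.Nonempty → K.Nonempty → (∀ i ∈ H, ∀ j ∈ K, i < j) →
            ((⋃ j ∈ K, F j) ∩ q (⋃ i ∈ H, F i)).Nonempty ∧ c (⋃ i ∈ H, F i) (⋃ j ∈ K, F j) = i := by
  classical
  obtain ⟨𝒰, u1, u2⟩ := idem
  obtain ⟨i, hi⟩ : ∃ i, ∀ᶠ a in 𝒰, ∀ᶠ b in 𝒰, c a b = i := by
    choose b hb using fun n => (𝒰.map (c n)).eq_pure_of_finite
    obtain ⟨a, ha⟩ := (𝒰.map b).eq_pure_of_finite
    refine ⟨a, mem_of_superset (show b ⁻¹' {a} ∈ 𝒰 from ?_) fun n hn => ?_⟩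
    · rw [← Ultrafilter.mem_map, ha]; simp
    · show c n ⁻¹' {a} ∈ 𝒰
      rw [← Ultrafilter.mem_map, hb n]; simpa using hn
  let P : Set ℕ → Set ℕ → Prop := fun a b => (∀ᶠ d in 𝒰, c b d = i) ∧
    ((∀ᶠ d in 𝒰, c a d = i) → c a b = i) ∧ (b ∩ q a).Nonempty
  have p1 : ∀ a, ∀ᶠ b in 𝒰, P a b := fun a => hi.and ((eventually_imp_distrib_left.2 id).and <| by
    choose g g1 g2 using (hq a).exists_gt
    filter_upwards [u1 (0, fun k => g k + 1)] with b ⟨_, _, k, hk⟩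
    exact ⟨g k, hk ⟨(g2 k).le, Nat.lt_succ_self _⟩, g1 k⟩)
  let S : Set ℕ → Set ℕ → Prop := fun a b => P a b ∧ ∀ᶠ d in 𝒰, P a (b ∪ d)
  have s1 : ∀ a, ∀ᶠ b in 𝒰, S a b := fun a => (p1 a).and ((u2 _).1 (p1 a))
  have s2 : ∀ a b, S a b → ∀ᶠ d in 𝒰, S a (b ∪ d) := fun a b h =>
    h.2.and (((u2 fun d => P a (b ∪ d)).1 h.2).mono fun d hd => by simpa only [union_assoc] using hd)
  let D : ℕ → Set (Set ℕ) := fun j => {b | b ∈ G (j, id) ∧ ∀ a ∈ powerset (Iio j), S a b ∧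
    ∀ a' ∈ powerset (Iio j), S a a' → S a (a' ∪ b)}
  have d1 : ∀ j, D j ∈ 𝒰 := fun j => inter_mem (u1 _) ((eventually_all_finite
    (finite_Iio j).powerset).2 fun a _ => (s1 a).and ((eventually_all_finite
      (finite_Iio j).powerset).2 fun a' _ => eventually_imp_distrib_left.2 (s2 a a')))
  have d2 : ∀ j, ∃ m, ∀ B, ∃ b ∈ D j, Ico m B ⊆ b := fun j => by
    by_contra h
    push Not at h
    choose g hg using h
    obtain ⟨b, b1, -, -, k, b2⟩ := 𝒰.nonempty_of_mem (inter_mem (d1 j) (u1 (0, g)))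
    exact hg k b b1 b2
  choose m b b1 b2 using d2
  choose β hβ using fun j B => (b1 j B).1.1.bddAbove
  let ψ : ℕ → ℕ := fun B => (Finset.range (B + 1)).sup (β · B) + B + 1
  have ψ1 : ∀ j B, j ≤ B → b j B ⊆ Iio (ψ B) := fun j B h n hn => by
    exact Nat.lt_succ_of_le (((hβ j B hn).trans (Finset.le_sup (f := (β · B))
      (Finset.mem_range.2 (Nat.lt_succ_of_le h)))).trans (Nat.le_add_right _ _))
  let t : ℕ → ℕ := fun n => (fun B => ψ B + m (ψ B))^[n] 0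
  have t1 : ∀ n, t (n + 1) = ψ (t n) + m (ψ (t n)) := fun n => iterate_succ_apply' _ _ _
  have t2 : StrictMono t := strictMono_nat_of_lt_succ fun n => by rw [t1]; simp only [ψ]; omega
  refine ⟨t, t2, fun Z hZ => ?_⟩
  let z := Nat.nth (· ∈ Z)
  have z1 : StrictMono z := Nat.nth_strictMono hZ
  let l : ℕ → ℕ := fun n => ψ (t (z n))
  let F : ℕ → Set ℕ := fun n => b (l n) (t (z (n + 1)))
  have l1 : ∀ n, l n + m (l n) ≤ t (z (n + 1)) := fun n =>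
    (t1 _).ge.trans (t2.monotone (z1 n.lt_succ_self))
  have l2 : Monotone l := monotone_nat_of_le_succ fun n => by
    have := l1 n
    simp only [l, ψ] at this ⊢; omega
  have f1 : ∀ n j, n < j → F n ⊆ Iio (l j) := fun n j h =>
    (ψ1 _ _ ((Nat.le_add_right _ _).trans (l1 n))).trans (Iio_subset_Iio (l2 h))
  have f2 : ∀ n a, a ⊆ Iio (l n) → ∀ K : Finset ℕ, K.Nonempty → (∀ j ∈ K, n ≤ j) →
      S a (⋃ j ∈ K, F j) := fun n a ha K => by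
    induction K using Finset.induction_on_max with
    | empty => simp
    | insert j K h ih =>
      intro _ h1
      have h2 := (b1 (l j) (t (z (j + 1)))).2 a
        (ha.trans (Iio_subset_Iio (l2 (h1 j (Finset.mem_insert_self _ _)))))
      rw [Finset.set_biUnion_insert, union_comm]
      rcases K.eq_empty_or_nonempty with rfl | h3
      · simpa using h2.1
      · exact h2.2 _ (iUnion₂_subset fun i hi => f1 i j (h i hi))
          (ih h3 fun i hi => h1 i (Finset.mem_insert_of_mem hi))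
  refine ⟨F, z 0 + 1, fun n => ⟨(b1 _ _).1.1, ((b1 _ _).2 ∅ (empty_subset _)).1.1.2.2.left⟩,
    (pairwise_disjoint_on _).2 fun n j h => disjoint_left.2 fun x h1 h2 =>
      (show x < l j from f1 n j h h1).not_ge ((b1 _ _).1.2.1 h2), fun j j1 j2 x hx => ?_, i, fun H K h1 h2 h3 => ?_⟩
  · have h1 : ∃ n, j ≤ z (n + 1) := ⟨j, (Nat.le_succ j).trans (z1.id_le _)⟩
    have h2 := Nat.find_spec h1
    have h3 : z (Nat.find h1) < j := by
      rcases h : Nat.find h1 with _ | n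
      · exact j1
      · exact not_le.1 (Nat.find_min h1 (by omega))
    have h4 : j ≠ z (Nat.find h1 + 1) := fun h => j2 (h ▸ Nat.nth_mem_of_infinite hZ _)
    exact mem_iUnion.2 ⟨Nat.find h1, b2 _ _ ⟨((Nat.le_add_left _ _).trans (t1 _).ge).trans
      ((t2.monotone h3).trans hx.1), hx.2.trans_le (t2.monotone (by omega))⟩⟩
  · have h4 := (f2 (K.min' h2) (⋃ i ∈ H, F i) (iUnion₂_subset fun i hi =>
      f1 _ _ (h3 i hi _ (K.min'_mem h2))) K h2 fun j hj => K.min'_le j hj).1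
    exact ⟨h4.2.2, h4.2.1 (f2 0 ∅ (empty_subset _) H h1 fun _ _ => Nat.zero_le _).1.1⟩

theorem star {Z : Type} [TopologicalSpace Z] [SecondCountableTopology Z] [Nonempty Z]
    (h : ∀ u : ℕ → Set Z, (∀ n, IsOpen (u n)) → (∀ z, {n | z ∈ u n}.Infinite) →
      ∃ A, ∀ z, Sp A {n | z ∈ u n}) : Star Z := by
  intro 𝒰 hU h1 k χ
  obtain ⟨u, u1, u2, u3⟩ := enum hU
  have h2 : ∀ a : Set ℕ, ∃ z, a.Finite → z ∉ ⋃₀ (u '' a) := fun a => by
    by_cases ha : a.Finite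
    · exact ((ne_univ_iff_exists_notMem _).1 (h1 _ (image_subset_iff.2 fun n _ => u2 n)
        (ha.image _))).imp fun _ h _ => h
    · exact ⟨Classical.arbitrary Z, fun h => (ha h).elim⟩
  choose p hp using h2
  obtain ⟨t, t1, t2⟩ := blocks (fun a b => χ s(⋃₀ (u '' a), ⋃₀ (u '' b)))
    (fun a => {n | p a ∈ u n}) fun a => u3 _
  obtain ⟨A, hA⟩ := h (fun j => ⋃ n ∈ Ico (t (j + 1)) (t (j + 2)), u n)
    (fun j => isOpen_biUnion fun n _ => hU.1.1 (u2 n)) fun z => inf_of fun j => by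
      obtain ⟨n, n1, n2⟩ := (u3 z).exists_gt (t (j + 1))
      have h2 : ∃ i, n < t (i + 2) := ⟨n, (Nat.lt_add_of_pos_right two_pos).trans_le (t1.id_le _)⟩
      have h3 : j ≤ Nat.find h2 := (Nat.le_find_iff _ _).2 fun i hi =>
        not_lt.2 ((t1.monotone (by omega)).trans n2.le)
      refine ⟨_, mem_biUnion ⟨?_, Nat.find_spec h2⟩ n1, h3⟩
      rcases h : Nat.find h2 with _ | i
      · exact (t1.monotone (by omega)).trans n2.le
      · exact not_lt.1 (Nat.find_min h2 (by omega))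
  obtain ⟨F, l, f1, f2, f3, c, f4⟩ := t2 (Nat.succ '' A)
    (((hA (Classical.arbitrary Z)).1.mono inter_subset_right).image Nat.succ_injective.injOn)
  have f5 : (⋃ n, u '' F n) ⊆ 𝒰 := iUnion_subset fun n => image_subset_iff.2 fun n _ => u2 n
  have f6 : ∀ H : Finset ℕ, ⋃ i ∈ H, ⋃₀ (u '' F i) = ⋃₀ (u '' ⋃ i ∈ H, F i) := fun H => by
    simp only [sUnion_image, biUnion_iUnion]
  refine ⟨fun n => u '' F n, fun n => ⟨(f1 n).1.image _, (f1 n).2.image _,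
    (subset_iUnion (fun n => u '' F n) n).trans f5⟩, fun n j h => (disjoint_image_iff u1).2 (f2 h),
    la_of hU f5 fun z => ?_, c, fun H K h2 h3 h4 => ?_⟩
  · refine ((inf_of (b := {n | z ∈ u n} ∩ ⋃ n, F n) fun k => ?_).image u1.injOn).mono ?_
    · obtain ⟨j, ⟨j1, j2⟩, j3⟩ := (hA z).2.exists_gt (max k l)
      obtain ⟨n, n1, n2⟩ := mem_iUnion₂.1 j1
      exact ⟨n, ⟨n2, f3 (j + 1) (by omega) (by simpa using j2) n1⟩,
        (show k ≤ j + 1 by omega).trans ((t1.id_le _).trans n1.1)⟩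
    · rintro _ ⟨n, ⟨n1, n2⟩, rfl⟩
      exact ⟨image_iUnion ▸ ⟨n, n2, rfl⟩, n1⟩
  · rw [f6, f6]
    obtain ⟨⟨n, n1, n2⟩, h5⟩ := f4 H K h2 h3 h4
    exact ⟨fun h => hp _ (H.finite_toSet.biUnion fun i _ => (f1 i).1)
      (h.ge ⟨_, ⟨n, n1, rfl⟩, n2⟩), h5⟩

theorem nmg {Y : Set (ℕ → ℕ)} (h : ∀ f : ℕ → ℕ, ∃ y ∈ Y, ∀ᶠ n in atTop, f n ≤ y n) :
    Y.Infinite ∧ ¬ Sfin (Cov (Op Y)) (Cov (Op Y)) := by
  obtain ⟨k, hk⟩ : ∃ k, ∀ f : ℕ → ℕ, ∃ y ∈ Y, ∀ n ≥ k, f n ≤ y n := by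
    by_contra h1
    push Not at h1
    choose f hf using h1
    obtain ⟨y, y1, y2⟩ := h fun n => (Finset.range (n + 1)).sup (f · n)
    obtain ⟨k, hk⟩ := eventually_atTop.1 y2
    obtain ⟨n, n1, n2⟩ := hf k y y1
    exact n2.not_ge ((Finset.le_sup (f := (f · n))
      (Finset.mem_range.2 (Nat.lt_succ_of_le n1))).trans (hk n n1))
  refine ⟨fun h1 => ?_, fun h1 => ?_⟩
  · obtain ⟨b, hb⟩ := h1.bddAbove
    obtain ⟨y, y1, y2⟩ := hk fun n => b n + 1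
    exact (hb y1 k).not_gt (y2 k le_rfl)
  refine (h1 (fun n => range fun m => {y : Y | y.1 (k + n) < m}) fun n => ⟨?_, ?_, ?_⟩).elim
    fun ℱ ⟨f1, f2⟩ => ?_
  · rintro _ ⟨m, rfl⟩
    exact (isOpen_discrete (Iio m)).preimage
      ((continuous_apply (A := fun _ : ℕ => ℕ) _).comp continuous_subtype_val)
  · exact eq_univ_of_forall fun y => ⟨_, ⟨_, rfl⟩, Nat.lt_succ_self _⟩
  · rintro ⟨m, hm⟩
    obtain ⟨y, y1, y2⟩ := hk fun _ => m
    exact (y2 _ (Nat.le_add_right _ _)).not_gt (hm.ge (mem_univ ⟨y, y1⟩))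
  · have f4 : ∀ n, ∃ j, ∀ U ∈ ℱ n, U ⊆ {y : Y | y.1 (k + n) < j} := fun n => by
      have h : ∀ U ∈ ℱ n, ∃ j, {y : Y | y.1 (k + n) < j} = U := fun U hU => (f1 n).2 hU
      choose! ι hι using h
      obtain ⟨j, hj⟩ := ((f1 n).1.image ι).bddAbove
      exact ⟨j, fun U hU y hy => lt_of_lt_of_le ((hι U hU).ge hy) (hj ⟨U, hU, rfl⟩)⟩
    choose g hg using f4
    obtain ⟨y, y1, y2⟩ := hk fun n => g (n - k)
    obtain ⟨U, u1, u2⟩ := f2.2.1.ge (mem_univ ⟨y, y1⟩)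
    obtain ⟨n, hn⟩ := mem_iUnion.1 u1
    exact (by simpa using y2 (k + n) (Nat.le_add_right _ _) : g n ≤ y (k + n)).not_gt (hg n U hn u2)

theorem key (ch : continuum = (aleph 1 : Cardinal.{0})) : ∃ Y : Set (ℕ → ℕ),
    Y.Infinite ∧ Star Y ∧ ¬ Sfin (Cov (Op Y)) (Cov (Op Y)) := by
  obtain ⟨Y, h1, h2⟩ := main ch
  obtain ⟨y0, hy0, -⟩ := h1 0
  have : Nonempty Y := ⟨⟨y0, hy0⟩⟩
  refine ⟨Y, (nmg h1).1, star fun u u1 u2 => ?_, (nmg h1).2⟩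
  choose U v1 v2 using fun n => isOpen_induced_iff.1 (u1 n)
  obtain ⟨A, hA⟩ := h2 U v1 fun y hy => by simpa [← v2] using u2 ⟨y, hy⟩
  exact ⟨A, fun z => by simpa [← v2] using hA z z.2⟩

end Pool.Agent.H.MP_2a01b0_gt
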